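import Mathlib
import Pool.Agent.MP_2a72d7_pr.Defs
import Pool.Agent.MP_2a72d7_pr.Sm.Base
import Pool.Agent.MP_2a72d7_pr.Sm.P_prob
import Pool.Agent.MP_2a72d7_pr.Sm.P_measgood
import Pool.Agent.MP_2a72d7_pr.Sm.Gauss

/-!
# Simple random tensors whose coordinates have bounded densities are well-conditioned in all degrees
-/

namespace Pool.Agent.Results.MP_2a72d7_pr.BoundedDensity

open MeasureTheory ProbabilityTheory Filter Topology Pool.Agent.MP_2a72d7_pr Pool.Agent.MP_2a72d7_pr.Sm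

/-- The law of `m` independent copies of a family `x₁, …, x_d` of independent vectors of `ℝⁿ` with
independent coordinates, the `i`-th coordinate of `x_k` having the law `ν k i`. -/
noncomputable def columnsLaw {n d : ℕ} (ν : Fin d → Fin n → Measure ℝ) (m : ℕ) :
    Measure (Fin m → Fin d → Fin n → ℝ) :=
  Measure.pi fun _ => Measure.pi fun k => Measure.pi (ν k)

theorem bound {L M ε : ℝ} (hM : 0 < M) (hε : 0 < ε) (hε1 : ε < 1) :
    ∃ C : ℝ, 1 ≤ C ∧ ∃ n₀ : ℕ, ∀ n ≥ n₀, ∀ d : ℕ, 1 ≤ d →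
      ∀ ν : Fin d → Fin n → Measure ℝ,
      (∀ k i, Admissible L (ν k i)) → (∀ k i, ν k i ≤ ENNReal.ofReal M • volume) →
      ∀ m : ℕ, (m : ℝ) ≤ (1 - ε) * (n : ℝ) ^ d → ∀ σ : ℝ, 0 < σ →
      (columnsLaw ν m).real {X | ¬ SigmaMinGE (fun i => simpleTensor (X i)) σ} ≤
        σ ^ 4 * (C / n) ^ d := by
  obtain ⟨C, hC, n₀, h⟩ := prob_small (L := L) hM hε hε1
  refine ⟨C ^ 2, one_le_pow₀ hC, max n₀ 1, ?_⟩
  intro n hn d hd ν hν hdens m hm σ hσ
  have hn0 : n₀ ≤ n := le_trans (le_max_left _ _) hn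
  have hn1 : 1 ≤ n := le_trans (le_max_right _ _) hn
  have h1 := h n hn0 d ν hν hdens m hm σ hσ
  have hnpos : (0 : ℝ) < n := by exact_mod_cast hn1
  have hCpos : 0 < C := by linarith
  have h2 : (columnsLaw ν m).real {X | ¬ SigmaMinGE (fun i => simpleTensor (X i)) σ} ≤
      σ ^ 4 * (C ^ (d + 1) / (n : ℝ) ^ d) := by
    rw [measureReal_def]
    exact ENNReal.toReal_le_of_le_ofReal (by positivity) h1
  refine h2.trans ?_
  rw [div_pow, ← pow_mul]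
  have h3 : C ^ (d + 1) ≤ C ^ (2 * d) := pow_le_pow_right₀ hC (by omega)
  gcongr

theorem prob_columnsLaw {L : ℝ} {n d : ℕ} (ν : Fin d → Fin n → Measure ℝ)
    (h : ∀ k i, Admissible L (ν k i)) (m : ℕ) : IsProbabilityMeasure (columnsLaw ν m) := by
  have h1 : ∀ k i, IsProbabilityMeasure (ν k i) := fun k i => (h k i).prob
  unfold columnsLaw
  infer_instance

theorem tendsto_strong {L M ε : ℝ} (hM : 0 < M) (hε : 0 < ε) (hε1 : ε < 1)
    (d : ℕ → ℕ) (hd : ∀ n, 1 ≤ d n) (ν : ∀ n, Fin (d n) → Fin n → Measure ℝ)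
    (hν : ∀ n k i, Admissible L (ν n k i))
    (hdens : ∀ n k i, ν n k i ≤ ENNReal.ofReal M • volume) :
    Tendsto (fun n : ℕ => (columnsLaw (ν n) ⌊(1 - ε) * (n : ℝ) ^ d n⌋₊).real
      {X | SigmaMinGE (fun i => simpleTensor (X i)) ((n : ℝ) ^ ((d n : ℝ) / 5))}) atTop
      (𝓝 1) := by
  obtain ⟨C, hC, n₀, h⟩ := bound (L := L) hM hε hε1
  have hCpos : 0 < C := by linarith
  -- the bad event
  have hbad : ∀ᶠ n : ℕ in atTop, (columnsLaw (ν n) ⌊(1 - ε) * (n : ℝ) ^ d n⌋₊).real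
      {X | ¬ SigmaMinGE (fun i => simpleTensor (X i)) ((n : ℝ) ^ ((d n : ℝ) / 5))} ≤
      C * (n : ℝ) ^ (-(1 / 5) : ℝ) := by
    have hlim : Tendsto (fun n : ℕ => C * (n : ℝ) ^ (-(1 / 5) : ℝ)) atTop (𝓝 (C * 0)) :=
      ((tendsto_rpow_neg_atTop (by norm_num : (0 : ℝ) < 1 / 5)).comp
        tendsto_natCast_atTop_atTop).const_mul C
    rw [mul_zero] at hlim
    filter_upwards [eventually_ge_atTop n₀, eventually_ge_atTop 1,
      hlim.eventually_le_const (zero_lt_one)] with n hn hn1 hle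
    have hnpos : (0 : ℝ) < n := by exact_mod_cast hn1
    have h1 := h n hn (d n) (hd n) (ν n) (hν n) (hdens n) ⌊(1 - ε) * (n : ℝ) ^ d n⌋₊
      (Nat.floor_le (by have := sub_pos.mpr hε1; positivity)) ((n : ℝ) ^ ((d n : ℝ) / 5))
      (by positivity)
    refine h1.trans ?_
    have h2 : ((n : ℝ) ^ ((d n : ℝ) / 5)) ^ 4 * (C / n) ^ d n =
        (C * (n : ℝ) ^ (-(1 / 5) : ℝ)) ^ d n := by
      have e1 : ((n : ℝ) ^ ((d n : ℝ) / 5)) ^ 4 = ((n : ℝ) ^ (4 / 5 : ℝ)) ^ d n := by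
        rw [← Real.rpow_natCast, ← Real.rpow_mul hnpos.le, ← Real.rpow_natCast,
          ← Real.rpow_mul hnpos.le]
        congr 1
        push_cast
        ring
      rw [e1, ← mul_pow]
      congr 1
      have e2 : (n : ℝ) ^ (-(1 / 5) : ℝ) = (n : ℝ) ^ (4 / 5 : ℝ) / n := by
        rw [eq_div_iff hnpos.ne', ← Real.rpow_add_one hnpos.ne']
        norm_num
      rw [e2]
      ring
    rw [h2]
    have h3 : 0 ≤ C * (n : ℝ) ^ (-(1 / 5) : ℝ) := by positivity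
    calc (C * (n : ℝ) ^ (-(1 / 5) : ℝ)) ^ d n ≤ (C * (n : ℝ) ^ (-(1 / 5) : ℝ)) ^ 1 :=
          pow_le_pow_of_le_one h3 hle (hd n)
      _ = _ := pow_one _
  have hlim2 : Tendsto (fun n : ℕ => 1 - C * (n : ℝ) ^ (-(1 / 5) : ℝ)) atTop (𝓝 (1 - C * 0)) :=
    (((tendsto_rpow_neg_atTop (by norm_num : (0 : ℝ) < 1 / 5)).comp
      tendsto_natCast_atTop_atTop).const_mul C).const_sub 1
  rw [mul_zero, sub_zero] at hlim2
  refine tendsto_of_tendsto_of_tendsto_of_le_of_le' hlim2 tendsto_const_nhds ?_ ?_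
  · filter_upwards [hbad] with n hn
    have := prob_columnsLaw (ν n) (hν n) ⌊(1 - ε) * (n : ℝ) ^ d n⌋₊
    have hc := prob_compl_eq_one_sub (μ := columnsLaw (ν n) ⌊(1 - ε) * (n : ℝ) ^ d n⌋₊)
      (measurable_good (n := n) (d := d n) (m := ⌊(1 - ε) * (n : ℝ) ^ d n⌋₊)
        ((n : ℝ) ^ ((d n : ℝ) / 5)))
    have hc2 := probReal_compl_eq_one_sub (μ := columnsLaw (ν n) ⌊(1 - ε) * (n : ℝ) ^ d n⌋₊)
      (measurable_good (n := n) (d := d n) (m := ⌊(1 - ε) * (n : ℝ) ^ d n⌋₊)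
        ((n : ℝ) ^ ((d n : ℝ) / 5)))
    have hset : {X : Fin ⌊(1 - ε) * (n : ℝ) ^ d n⌋₊ → Fin (d n) → Fin n → ℝ |
        SigmaMinGE (fun i => simpleTensor (X i)) ((n : ℝ) ^ ((d n : ℝ) / 5))}ᶜ =
        {X | ¬ SigmaMinGE (fun i => simpleTensor (X i)) ((n : ℝ) ^ ((d n : ℝ) / 5))} := rfl
    rw [hset] at hc2
    linarith
  · refine Eventually.of_forall fun n => ?_
    have := prob_columnsLaw (ν n) (hν n) ⌊(1 - ε) * (n : ℝ) ^ d n⌋₊
    exact measureReal_le_one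

theorem tendsto_weak {L M ε : ℝ} (hM : 0 < M) (hε : 0 < ε) (hε1 : ε < 1)
    (d : ℕ → ℕ) (hd : ∀ n, 1 ≤ d n) (ν : ∀ n, Fin (d n) → Fin n → Measure ℝ)
    (hν : ∀ n k i, Admissible L (ν n k i))
    (hdens : ∀ n k i, ν n k i ≤ ENNReal.ofReal M • volume) :
    Tendsto (fun n : ℕ => (columnsLaw (ν n) ⌊(1 - ε) * (n : ℝ) ^ d n⌋₊).real
      {X | SigmaMinGE (fun i => simpleTensor (X i)) (√ε / 2)}) atTop (𝓝 1) := by
  refine tendsto_of_tendsto_of_tendsto_of_le_of_le'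
    (tendsto_strong hM hε hε1 d hd ν hν hdens) tendsto_const_nhds ?_ ?_
  · filter_upwards [eventually_ge_atTop 1] with n hn
    have := prob_columnsLaw (ν n) (hν n) ⌊(1 - ε) * (n : ℝ) ^ d n⌋₊
    refine measureReal_mono ?_ (measure_ne_top _ _)
    intro X hX a
    refine le_trans ?_ (hX a)
    apply mul_le_mul_of_nonneg_right _ (norm_nonneg _)
    have h1 : (1 : ℝ) ≤ (n : ℝ) ^ ((d n : ℝ) / 5) :=
      Real.one_le_rpow (by exact_mod_cast hn) (by positivity)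
    have h2 : √ε ≤ 1 := by
      rw [Real.sqrt_le_left (by norm_num)]
      linarith
    linarith
  · refine Eventually.of_forall fun n => ?_
    have := prob_columnsLaw (ν n) (hν n) ⌊(1 - ε) * (n : ℝ) ^ d n⌋₊
    exact measureReal_le_one

/-- For coordinate laws with densities bounded by `M` the simple random tensors are
well-conditioned with high probability, whatever the degrees `d(n) ≥ 1` are. -/
theorem result (L M ε : ℝ) (hM : 0 < M) (hε : 0 < ε) (hε1 : ε < 1) :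
    (∃ C : ℝ, 1 ≤ C ∧ ∃ n₀ : ℕ, ∀ n ≥ n₀, ∀ d : ℕ, 1 ≤ d →
      ∀ ν : Fin d → Fin n → Measure ℝ,
      (∀ k i, Admissible L (ν k i)) → (∀ k i, ν k i ≤ ENNReal.ofReal M • volume) →
      ∀ m : ℕ, (m : ℝ) ≤ (1 - ε) * (n : ℝ) ^ d → ∀ σ : ℝ, 0 < σ →
      (columnsLaw ν m).real {X | ¬ SigmaMinGE (fun i => simpleTensor (X i)) σ} ≤
        σ ^ 4 * (C / n) ^ d) ∧
    (∀ d : ℕ → ℕ, (∀ n, 1 ≤ d n) → ∀ ν : ∀ n, Fin (d n) → Fin n → Measure ℝ,
      (∀ n k i, Admissible L (ν n k i)) →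
      (∀ n k i, ν n k i ≤ ENNReal.ofReal M • volume) →
      Tendsto (fun n : ℕ => (columnsLaw (ν n) ⌊(1 - ε) * (n : ℝ) ^ d n⌋₊).real
        {X | SigmaMinGE (fun i => simpleTensor (X i)) (√ε / 2)}) atTop (𝓝 1)) ∧
    (Admissible 2 (gaussianReal 0 1) ∧ gaussianReal 0 1 ≤ ENNReal.ofReal 1 • volume) :=
  ⟨bound hM hε hε1, fun d hd ν hν hdens => tendsto_weak hM hε hε1 d hd ν hν hdens,
    gauss_adm, gauss_dens⟩

end Pool.Agent.Results.MP_2a72d7_pr.BoundedDensity
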