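import Mathlib
import Pool.Agent.MP_2a72d7_pr.Defs
import Pool.Agent.MP_2a72d7_pr.Sm.Base
import Pool.Agent.MP_2a72d7_pr.Sm.P_measgood
import Pool.Agent.MP_2a72d7_pr.Pos.R_gsmall
import Pool.Agent.MP_2a72d7_pr.Pos.R_mom2
import Pool.Agent.MP_2a72d7_pr.Pos.R_gprob

/-!
# Simple random tensors with arbitrary admissible laws are well-conditioned up to degree c n / log n
-/

namespace Pool.Agent.Results.MP_2a72d7_pr.GeneralLaws

open MeasureTheory Filter Topology Pool.Agent.MP_2a72d7_pr Pool.Agent.MP_2a72d7_pr.Sm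
  Pool.Agent.MP_2a72d7_pr.Pos

/-- The law of `m` independent copies of a family `x₁, …, x_d` of independent vectors of `ℝⁿ` with
independent coordinates, the `i`-th coordinate of `x_k` having the law `ν k i`. -/
noncomputable def columnsLaw {n d : ℕ} (ν : Fin d → Fin n → Measure ℝ) (m : ℕ) :
    Measure (Fin m → Fin d → Fin n → ℝ) :=
  Measure.pi fun _ => Measure.pi fun k => Measure.pi (ν k)

theorem prob_columnsLaw {L : ℝ} {n d : ℕ} (ν : Fin d → Fin n → Measure ℝ)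
    (h : ∀ k i, Admissible L (ν k i)) (m : ℕ) : IsProbabilityMeasure (columnsLaw ν m) := by
  have h1 : ∀ k i, IsProbabilityMeasure (ν k i) := fun k i => (h k i).prob
  unfold columnsLaw
  infer_instance

theorem bound (L ε : ℝ) (hε : 0 < ε) (hε1 : ε < 1) :
    ∃ c : ℝ, 0 < c ∧ ∃ K : ℝ, 1 ≤ K ∧ ∀ n : ℕ, 0 < n → ∀ (d : ℕ)
      (ν : Fin d → Fin n → Measure ℝ), (∀ k i, Admissible L (ν k i)) →
      ∀ m : ℕ, (m : ℝ) ≤ (1 - ε) * (n : ℝ) ^ d → ∀ σ : ℝ, 0 < σ →
      (columnsLaw ν m).real {X | ¬ SigmaMinGE (fun i => simpleTensor (X i)) σ} ≤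
        2 * ((n : ℝ) ^ d) ^ 2 * (K ^ (d + 1) * Real.exp (-(c * n))) +
          4 * σ ^ 4 * ((n : ℝ) ^ d / (ε / 2 * ((n : ℝ) / 2) ^ d) ^ 2 +
            ((n : ℝ) ^ d) ^ 2 / (ε / 2 * ((n : ℝ) / 2) ^ d) ^ 3) := by
  obtain ⟨c, hc, K, hK, h⟩ := gsmall L ε hε hε1
  refine ⟨c, hc, K, hK, ?_⟩
  intro n hn d ν hν m hm σ hσ
  have hnpos : (0 : ℝ) < n := by exact_mod_cast hn
  have hpi : ∀ k i, IsProbabilityMeasure (ν k i) := fun k i => (hν k i).prob
  have hP : IsProbabilityMeasure (tenLaw ν) := by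
    unfold tenLaw
    infer_instance
  have hθ : 0 < ε / 2 * ((n : ℝ) / 2) ^ d := by positivity
  have h1 := gprob (tenLaw ν) (mom2 ν hν) (ε / 2 * ((n : ℝ) / 2) ^ d) hθ
    (ENNReal.ofReal (K ^ (d + 1) * Real.exp (-(c * n)))) m
    (fun m' hm' Y η hη => h n hn d ν hν m' (by
      refine le_trans ?_ hm
      have : (m' : ℝ) + 1 ≤ m := by exact_mod_cast hm'
      linarith) Y η hη) σ hσ
  have hN : (0 : ℝ) < (n : ℝ) ^ d := by positivity
  have hmN : (m : ℝ) ≤ (n : ℝ) ^ d := by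
    refine hm.trans ?_
    nlinarith
  have hN1 : (1 : ℝ) ≤ (n : ℝ) ^ d := one_le_pow₀ (by exact_mod_cast hn)
  have hKpos : 0 < K := by linarith
  rw [measureReal_def]
  apply ENNReal.toReal_le_of_le_ofReal (by positivity)
  refine h1.trans ?_
  have hcast : ((m : ENNReal) + (m : ENNReal) ^ 2) = ENNReal.ofReal ((m : ℝ) + (m : ℝ) ^ 2) := by
    rw [ENNReal.ofReal_add (by positivity) (by positivity), ENNReal.ofReal_natCast,
      ENNReal.ofReal_pow (by positivity), ENNReal.ofReal_natCast]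
  rw [hcast, ← ENNReal.ofReal_mul (by positivity), ← ENNReal.ofReal_add (by positivity)
    (by positivity)]
  apply ENNReal.ofReal_le_ofReal
  have h2 : (m : ℝ) + (m : ℝ) ^ 2 ≤ 2 * ((n : ℝ) ^ d) ^ 2 := by
    have hm0 : (0 : ℝ) ≤ m := by positivity
    nlinarith
  gcongr

theorem tendsto_main (L ε : ℝ) (hε : 0 < ε) (hε1 : ε < 1) :
    ∃ c : ℝ, 0 < c ∧ ∀ d : ℕ → ℕ, (∀ n, 1 ≤ d n) →
      (∀ᶠ n : ℕ in atTop, (d n : ℝ) ≤ c * n / Real.log n) →
      ∀ ν : ∀ n, Fin (d n) → Fin n → Measure ℝ, (∀ n k i, Admissible L (ν n k i)) →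
      Tendsto (fun n : ℕ => (columnsLaw (ν n) ⌊(1 - ε) * (n : ℝ) ^ d n⌋₊).real
        {X | SigmaMinGE (fun i => simpleTensor (X i)) (√ε / 2)}) atTop (𝓝 1) := by
  obtain ⟨c, hc, K, hK, h⟩ := bound L ε hε hε1
  have hKpos : 0 < K := by linarith
  have hlogK : 0 ≤ Real.log K := Real.log_nonneg hK
  set c' : ℝ := c / (2 * (2 + Real.log K)) with hc'
  have hc'pos : 0 < c' := by positivity
  have hc'e : c' * (2 + Real.log K) = c / 2 := by
    rw [hc']
    field_simp
  refine ⟨c', hc'pos, ?_⟩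
  intro d hd hdn ν hν
  -- upper bound for the bad event
  set u : ℕ → ℝ := fun n => 2 * K * Real.exp (-(c / 2 * n)) + ε ^ 2 / 4 *
    (16 / ε ^ 2 / n + 64 / ε ^ 3 / n) with hu
  have hulim : Tendsto u atTop (𝓝 0) := by
    have e1 : Tendsto (fun n : ℕ => 2 * K * Real.exp (-(c / 2 * n))) atTop (𝓝 (2 * K * 0)) := by
      apply Tendsto.const_mul
      apply Real.tendsto_exp_atBot.comp
      apply tendsto_neg_atTop_atBot.comp
      exact Tendsto.const_mul_atTop (by positivity) tendsto_natCast_atTop_atTop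
    have e2 : ∀ a : ℝ, Tendsto (fun n : ℕ => a / (n : ℝ)) atTop (𝓝 0) := fun a =>
      tendsto_const_div_atTop_nhds_zero_nat a
    have e3 := (((e2 (16 / ε ^ 2)).add (e2 (64 / ε ^ 3))).const_mul (ε ^ 2 / 4))
    have e4 := e1.add e3
    simpa [hu] using e4
  have hbad : ∀ᶠ n : ℕ in atTop, (columnsLaw (ν n) ⌊(1 - ε) * (n : ℝ) ^ d n⌋₊).real
      {X | ¬ SigmaMinGE (fun i => simpleTensor (X i)) (√ε / 2)} ≤ u n := by
    filter_upwards [hdn, eventually_ge_atTop 8] with n hdn' hn8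
    have hn0 : 0 < n := by omega
    have hnpos : (0 : ℝ) < n := by exact_mod_cast hn0
    have hn8' : (8 : ℝ) ≤ n := by exact_mod_cast hn8
    have hlog1 : 1 ≤ Real.log n := by
      rw [Real.le_log_iff_exp_le hnpos]
      have := Real.exp_one_lt_d9
      linarith
    have hlogpos : 0 < Real.log n := by linarith
    have h1 := h n hn0 (d n) (ν n) (hν n) ⌊(1 - ε) * (n : ℝ) ^ d n⌋₊
      (Nat.floor_le (by have := sub_pos.mpr hε1; positivity)) (√ε / 2) (by positivity)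
    refine h1.trans ?_
    rw [hu]
    have hdlog : (d n : ℝ) * Real.log n ≤ c' * n := by
      rwa [le_div_iff₀ hlogpos] at hdn'
    have hdle : (d n : ℝ) ≤ c' * n := by
      have h3 : (d n : ℝ) * 1 ≤ d n * Real.log n :=
        mul_le_mul_of_nonneg_left hlog1 (Nat.cast_nonneg _)
      linarith
    apply add_le_add
    · have e1 : ((n : ℝ) ^ d n) ^ 2 = Real.exp (2 * (d n * Real.log n)) := by
        rw [← pow_mul, mul_comm (2 : ℝ), mul_assoc, mul_comm (Real.log n) 2, ← mul_assoc,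
          show (d n : ℝ) * 2 = ((d n * 2 : ℕ) : ℝ) by push_cast; ring, Real.exp_nat_mul,
          Real.exp_log hnpos]
      have e2 : K ^ (d n + 1) = K * Real.exp (d n * Real.log K) := by
        rw [Real.exp_nat_mul, Real.exp_log hKpos]
        ring
      rw [e1, e2]
      have e3 : 2 * Real.exp (2 * (d n * Real.log n)) *
          (K * Real.exp (d n * Real.log K) * Real.exp (-(c * n))) =
          2 * K * Real.exp (2 * (d n * Real.log n) + d n * Real.log K + -(c * n)) := by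
        rw [Real.exp_add, Real.exp_add]
        ring
      rw [e3]
      apply mul_le_mul_of_nonneg_left _ (by positivity)
      apply Real.exp_le_exp.mpr
      have h4 : (d n : ℝ) * Real.log K ≤ c' * n * Real.log K :=
        mul_le_mul_of_nonneg_right hdle hlogK
      have h5 : c' * n * (2 + Real.log K) = c / 2 * n := by
        rw [mul_right_comm, hc'e]
      nlinarith
    · have hσ4 : 4 * (√ε / 2) ^ 4 = ε ^ 2 / 4 := by
        have : √ε ^ 4 = ε ^ 2 := by
          rw [show (4 : ℕ) = 2 * 2 by norm_num, pow_mul, Real.sq_sqrt hε.le]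
        rw [div_pow, this]
        ring
      rw [hσ4]
      apply mul_le_mul_of_nonneg_left _ (by positivity)
      have hd1 := hd n
      have hq : (0 : ℝ) < (n : ℝ) ^ d n := by positivity
      have ht : (0 : ℝ) < (2 : ℝ) ^ d n := by positivity
      have hq2 : ((n : ℝ) / 2) ^ d n = (n : ℝ) ^ d n / 2 ^ d n := div_pow _ _ _
      have h4 : (4 / (n : ℝ)) ^ d n = (2 ^ d n) ^ 2 / (n : ℝ) ^ d n := by
        rw [div_pow, show (4 : ℝ) = 2 ^ 2 by norm_num, ← pow_mul, mul_comm 2 (d n), pow_mul]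
      have h8 : (8 / (n : ℝ)) ^ d n = (2 ^ d n) ^ 3 / (n : ℝ) ^ d n := by
        rw [div_pow, show (8 : ℝ) = 2 ^ 3 by norm_num, ← pow_mul, mul_comm 3 (d n), pow_mul]
      have f1 : (n : ℝ) ^ d n / (ε / 2 * ((n : ℝ) / 2) ^ d n) ^ 2 =
          4 / ε ^ 2 * (4 / n) ^ d n := by
        rw [hq2, h4]
        field_simp
        norm_num
      have f2 : ((n : ℝ) ^ d n) ^ 2 / (ε / 2 * ((n : ℝ) / 2) ^ d n) ^ 3 =
          8 / ε ^ 3 * (8 / n) ^ d n := by
        rw [hq2, h8]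
        field_simp
        norm_num
      rw [f1, f2]
      have g1 : (4 / (n : ℝ)) ^ d n ≤ 4 / n := by
        calc (4 / (n : ℝ)) ^ d n ≤ (4 / (n : ℝ)) ^ 1 :=
              pow_le_pow_of_le_one (by positivity)
                (by rw [div_le_one hnpos]; linarith) hd1
          _ = _ := pow_one _
      have g2 : (8 / (n : ℝ)) ^ d n ≤ 8 / n := by
        calc (8 / (n : ℝ)) ^ d n ≤ (8 / (n : ℝ)) ^ 1 :=
              pow_le_pow_of_le_one (by positivity)
                (by rw [div_le_one hnpos]; linarith) hd1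
          _ = _ := pow_one _
      apply add_le_add
      · calc 4 / ε ^ 2 * (4 / (n : ℝ)) ^ d n ≤ 4 / ε ^ 2 * (4 / n) :=
              mul_le_mul_of_nonneg_left g1 (by positivity)
          _ = 16 / ε ^ 2 / n := by ring
      · calc 8 / ε ^ 3 * (8 / (n : ℝ)) ^ d n ≤ 8 / ε ^ 3 * (8 / n) :=
              mul_le_mul_of_nonneg_left g2 (by positivity)
          _ = 64 / ε ^ 3 / n := by ring
  have hlim2 : Tendsto (fun n : ℕ => 1 - u n) atTop (𝓝 (1 - 0)) := hulim.const_sub 1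
  rw [sub_zero] at hlim2
  refine tendsto_of_tendsto_of_tendsto_of_le_of_le' hlim2 tendsto_const_nhds ?_ ?_
  · filter_upwards [hbad] with n hn
    have := prob_columnsLaw (ν n) (hν n) ⌊(1 - ε) * (n : ℝ) ^ d n⌋₊
    have hc2 := probReal_compl_eq_one_sub (μ := columnsLaw (ν n) ⌊(1 - ε) * (n : ℝ) ^ d n⌋₊)
      (measurable_good (n := n) (d := d n) (m := ⌊(1 - ε) * (n : ℝ) ^ d n⌋₊) (√ε / 2))
    have hset : {X : Fin ⌊(1 - ε) * (n : ℝ) ^ d n⌋₊ → Fin (d n) → Fin n → ℝ |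
        SigmaMinGE (fun i => simpleTensor (X i)) (√ε / 2)}ᶜ =
        {X | ¬ SigmaMinGE (fun i => simpleTensor (X i)) (√ε / 2)} := rfl
    rw [hset] at hc2
    linarith
  · refine Eventually.of_forall fun n => ?_
    have := prob_columnsLaw (ν n) (hν n) ⌊(1 - ε) * (n : ℝ) ^ d n⌋₊
    exact measureReal_le_one

/-- For every `L` and `ε ∈ (0,1)` there is `c > 0` such that simple random tensors with arbitrary
admissible coordinate laws are well-conditioned with high probability for all degrees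
`d(n) ≤ c n / log n`. -/
theorem result (L ε : ℝ) (hε : 0 < ε) (hε1 : ε < 1) :
    ∃ c : ℝ, 0 < c ∧ ∀ d : ℕ → ℕ, (∀ n, 1 ≤ d n) →
      (∀ᶠ n : ℕ in atTop, (d n : ℝ) ≤ c * n / Real.log n) →
      ∀ ν : ∀ n, Fin (d n) → Fin n → Measure ℝ, (∀ n k i, Admissible L (ν n k i)) →
      Tendsto (fun n : ℕ => (columnsLaw (ν n) ⌊(1 - ε) * (n : ℝ) ^ d n⌋₊).real
        {X | SigmaMinGE (fun i => simpleTensor (X i)) (√ε / 2)}) atTop (𝓝 1) :=
  tendsto_main L ε hε hε1

end Pool.Agent.Results.MP_2a72d7_pr.GeneralLaws
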