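import Mathlib
import Pool.Agent.MP_2a72d7_pr.Defs

/-!
Simple subgaussian random tensors of degree at least `c n / log n` need not be linearly
independent: coordinate laws with an atom at zero produce zero columns.
-/

namespace Pool.Agent.Results.MP_2a72d7_pr.ZeroColumn

open MeasureTheory Filter Topology Pool.Agent.MP_2a72d7_pr

theorem not_sigma_pos {m n d : ℕ} (x : Fin m → Fin d → Fin n → ℝ) (i : Fin m) (k : Fin d)
    (h : x i k = 0) (σ : ℝ) (hσ : 0 < σ) :
    ¬ SigmaMinGE (fun i => simpleTensor (x i)) σ := by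
  intro hs
  have h1 := hs (EuclideanSpace.single i (1 : ℝ))
  have hz : simpleTensor (x i) = 0 := by
    ext J
    simp only [simpleTensor, PiLp.zero_apply]
    apply Finset.prod_eq_zero (Finset.mem_univ k)
    rw [h]
    rfl
  rw [PiLp.norm_single] at h1
  have h2 : ∑ j, (EuclideanSpace.single i (1 : ℝ) : EuclideanSpace ℝ (Fin m)) j •
      simpleTensor (x j) = 0 := by
    apply Finset.sum_eq_zero
    intro j _
    by_cases hj : j = i
    · rw [hj, hz, smul_zero]
    · rw [PiLp.single_apply, if_neg hj, zero_smul]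
  rw [h2] at h1
  simp at h1
  linarith

/-- probability that no column is zero because of its first factor -/
theorem prob_le (ν : Measure ℝ) [IsProbabilityMeasure ν] (n d m : ℕ) (hd : 0 < d) :
    (coordLaw ν n d m).real {x | ∃ σ : ℝ, 0 < σ ∧ SigmaMinGE (fun i => simpleTensor (x i)) σ}
      ≤ (1 - (ν.real {0}) ^ n) ^ m := by
  set μ : Measure (Fin d → Fin n → ℝ) := Measure.pi fun _ => Measure.pi fun _ => ν with hμ
  set k0 : Fin d := ⟨0, hd⟩
  set B : Set (Fin d → Fin n → ℝ) := {y | y k0 = 0} with hB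
  have hBmeas : MeasurableSet B := by
    apply measurableSet_eq_fun (measurable_pi_apply k0) measurable_const
  have hμB : μ.real B = (ν.real {0}) ^ n := by
    have hset : B = Set.univ.pi (fun k : Fin d => if k = k0 then ({0} : Set (Fin n → ℝ))
        else Set.univ) := by
      ext y
      simp only [hB, Set.mem_ofPred_eq, Set.mem_univ_pi]
      constructor
      · intro h k
        by_cases hk : k = k0
        · rw [if_pos hk, hk, h]
          rfl
        · rw [if_neg hk]
          trivial
      · intro h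
        have := h k0
        rw [if_pos rfl] at this
        exact this
    have hzero : ({0} : Set (Fin n → ℝ)) = Set.univ.pi (fun _ => {0}) := by
      ext y
      simp [funext_iff]
    unfold Measure.real
    rw [hset, hμ, Measure.pi_pi]
    rw [Finset.prod_eq_single k0]
    · rw [if_pos rfl, hzero, Measure.pi_pi]
      simp
    · intro k _ hk
      rw [if_neg hk]
      simp
    · intro h
      exact absurd (Finset.mem_univ _) h
  have hsub : {x : Fin m → Fin d → Fin n → ℝ |
      ∃ σ : ℝ, 0 < σ ∧ SigmaMinGE (fun i => simpleTensor (x i)) σ}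
      ⊆ Set.univ.pi (fun _ : Fin m => Bᶜ) := by
    intro x hx i _ hxi
    obtain ⟨σ, hσ, hs⟩ := hx
    exact not_sigma_pos x i k0 hxi σ hσ hs
  have hprob : IsProbabilityMeasure (coordLaw ν n d m) := by
    unfold coordLaw
    infer_instance
  calc (coordLaw ν n d m).real
        {x | ∃ σ : ℝ, 0 < σ ∧ SigmaMinGE (fun i => simpleTensor (x i)) σ}
      ≤ (coordLaw ν n d m).real (Set.univ.pi (fun _ : Fin m => Bᶜ)) := measureReal_mono hsub
    _ = (μ.real Bᶜ) ^ m := by
        unfold Measure.real coordLaw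
        rw [Measure.pi_pi]
        simp [hμ]
    _ = (1 - (ν.real {0}) ^ n) ^ m := by
        rw [measureReal_compl hBmeas, hμB]
        simp

/-- the symmetric three-point law with an atom of mass `q` at `0` and unit variance -/
noncomputable def lazyLaw (q : ℝ) : Measure ℝ :=
  ENNReal.ofReal q • Measure.dirac 0 + ENNReal.ofReal ((1 - q) / 2) •
    (Measure.dirac (1 / √(1 - q)) + Measure.dirac (-(1 / √(1 - q))))

theorem lazyLaw_integral {q : ℝ} (h0 : 0 < q) (h1 : q < 1) (f : ℝ → ℝ) :
    ∫ x, f x ∂(lazyLaw q) = q * f 0 + (1 - q) / 2 * (f (1 / √(1 - q)) + f (-(1 / √(1 - q)))) := by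
  unfold lazyLaw
  have hi : ∀ a : ℝ, Integrable f (Measure.dirac a) := fun a =>
    integrable_dirac (by simp)
  rw [integral_add_measure, integral_smul_measure, integral_smul_measure, integral_add_measure,
    integral_dirac, integral_dirac, integral_dirac, ENNReal.toReal_ofReal h0.le,
    ENNReal.toReal_ofReal (by linarith)]
  · simp
  · exact hi _
  · exact hi _
  · exact (hi _).smul_measure ENNReal.ofReal_ne_top
  · exact ((hi _).add_measure (hi _)).smul_measure ENNReal.ofReal_ne_top

theorem lazyLaw_lintegral {q : ℝ} (f : ℝ → ENNReal) :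
    ∫⁻ x, f x ∂(lazyLaw q) = ENNReal.ofReal q * f 0 + ENNReal.ofReal ((1 - q) / 2) *
      (f (1 / √(1 - q)) + f (-(1 / √(1 - q)))) := by
  unfold lazyLaw
  rw [lintegral_add_measure, lintegral_smul_measure, lintegral_smul_measure,
    lintegral_add_measure, lintegral_dirac, lintegral_dirac, lintegral_dirac]
  simp

theorem lazyLaw_prob {q : ℝ} (h0 : 0 < q) (h1 : q < 1) : IsProbabilityMeasure (lazyLaw q) := by
  constructor
  have := lazyLaw_lintegral (q := q) (fun _ => 1)
  rw [lintegral_one] at this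
  rw [this, mul_one, ← ENNReal.ofReal_one, ← ENNReal.ofReal_add (by norm_num) (by norm_num),
    ← ENNReal.ofReal_mul (by linarith), ← ENNReal.ofReal_add h0.le (by linarith)]
  congr 1
  ring

theorem lazyLaw_zero {q : ℝ} (h0 : 0 < q) (h1 : q < 1) : (lazyLaw q).real {0} = q := by
  have hs : (√(1 - q))⁻¹ ≠ 0 := by
    have : 0 < √(1 - q) := Real.sqrt_pos.mpr (by linarith)
    positivity
  have hs' : -(√(1 - q))⁻¹ ≠ 0 := neg_ne_zero.mpr hs
  unfold Measure.real lazyLaw
  simp [hs, hs', h0.le, Pi.single_apply]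

theorem lazyLaw_admissible {q : ℝ} (h0 : 0 < q) (h1 : q < 1) :
    Admissible (√(2 / (1 - q))) (lazyLaw q) := by
  have h1q : 0 < 1 - q := by linarith
  have hsq : (1 / √(1 - q)) ^ 2 = 1 / (1 - q) := by
    rw [div_pow, Real.sq_sqrt h1q.le, one_pow]
  have hL : (√(2 / (1 - q))) ^ 2 = 2 / (1 - q) := Real.sq_sqrt (by positivity)
  refine ⟨lazyLaw_prob h0 h1, Real.sqrt_pos.mpr (by positivity), ?_, ?_, ?_⟩
  · rw [lazyLaw_integral h0 h1 (fun x => x)]
    ring
  · rw [lazyLaw_integral h0 h1 (fun x => x ^ 2)]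
    simp only [neg_sq, hsq]
    field_simp
    ring
  · rw [lazyLaw_lintegral]
    simp only [neg_sq, hsq, hL]
    have he : (1 / (1 - q)) / (2 / (1 - q)) = 1 / 2 := by
      field_simp
    rw [he, ← ENNReal.ofReal_add (by positivity) (by positivity),
      ← ENNReal.ofReal_mul h0.le, ← ENNReal.ofReal_mul (by linarith),
      ← ENNReal.ofReal_add (by positivity) (by positivity)]
    have h2 : (2 : ENNReal) = ENNReal.ofReal 2 := by simp
    rw [h2]
    apply ENNReal.ofReal_le_ofReal
    have hexp : Real.exp (1 / 2) ≤ 2 := by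
      have h3 : Real.exp (1 / 2) ^ 2 = Real.exp 1 := by
        rw [← Real.exp_nat_mul]
        norm_num
      have h4 := Real.exp_one_lt_d9
      nlinarith [Real.exp_pos (1 / 2)]
    simp only [ne_eq, OfNat.ofNat_ne_zero, not_false_eq_true, zero_pow, zero_div, Real.exp_zero,
      mul_one]
    nlinarith

/-- For every `c > 0` there is an admissible coordinate law such that, for every `ε ∈ (0,1)` and
every sequence of degrees with `d(n) ≥ c n / log n` for all large `n`, the probability that
`m = ⌊(1-ε) n^d⌋` independent simple random tensors have `σ_min > 0` tends to `0`. -/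
theorem result : ∀ c : ℝ, 0 < c → ∃ (L : ℝ) (ν : Measure ℝ), Admissible L ν ∧
    ∀ ε : ℝ, 0 < ε → ε < 1 → ∀ d : ℕ → ℕ,
      (∀ᶠ n : ℕ in atTop, c * n / Real.log n ≤ d n) →
      Tendsto (fun n : ℕ => (coordLaw ν n (d n) ⌊(1 - ε) * (n : ℝ) ^ d n⌋₊).real
        {x | ∃ σ : ℝ, 0 < σ ∧ SigmaMinGE (fun i => simpleTensor (x i)) σ}) atTop (𝓝 0) := by
  intro c hc
  set q : ℝ := Real.exp (-(c / 2)) with hq
  have h0 : 0 < q := Real.exp_pos _
  have h1 : q < 1 := by
    rw [hq, Real.exp_lt_one_iff]
    linarith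
  refine ⟨_, lazyLaw q, lazyLaw_admissible h0 h1, ?_⟩
  intro ε hε0 hε1 d hd
  have hprob := lazyLaw_prob h0 h1
  have hlim : Tendsto (fun n : ℕ => Real.exp (-((1 - ε) * Real.exp (c / 2 * (n : ℝ)) - 1)))
      atTop (𝓝 0) := by
    apply Real.tendsto_exp_atBot.comp
    apply tendsto_neg_atTop_atBot.comp
    apply tendsto_atTop_add_const_right
    apply Tendsto.const_mul_atTop (by linarith)
    apply Real.tendsto_exp_atTop.comp
    exact Tendsto.const_mul_atTop (by positivity) tendsto_natCast_atTop_atTop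
  refine tendsto_of_tendsto_of_tendsto_of_le_of_le' tendsto_const_nhds hlim
    (Eventually.of_forall fun n => measureReal_nonneg) ?_
  filter_upwards [hd, eventually_ge_atTop 3] with n hn hn3
  have hn3' : (3 : ℝ) ≤ n := by exact_mod_cast hn3
  have hlog : 0 < Real.log n := Real.log_pos (by linarith)
  have hdpos : 0 < d n := by
    have : (0 : ℝ) < d n := lt_of_lt_of_le (by positivity) hn
    exact_mod_cast this
  refine le_trans (prob_le (lazyLaw q) n (d n) _ hdpos) ?_
  rw [lazyLaw_zero h0 h1]
  set m := ⌊(1 - ε) * (n : ℝ) ^ d n⌋₊ with hm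
  have hqn1 : q ^ n ≤ 1 := pow_le_one₀ h0.le h1.le
  have hpow : Real.exp (c * n) ≤ (n : ℝ) ^ d n := by
    have h2 : c * n ≤ d n * Real.log n := by
      rw [div_le_iff₀ hlog] at hn
      exact hn
    calc Real.exp (c * n) ≤ Real.exp (d n * Real.log n) := Real.exp_le_exp.mpr h2
      _ = (n : ℝ) ^ d n := by
          rw [Real.exp_nat_mul, Real.exp_log (by linarith)]
  have hqn : q ^ n = Real.exp (-(c / 2 * n)) := by
    rw [hq, ← Real.exp_nat_mul]
    congr 1
    ring
  have hmq : (1 - ε) * Real.exp (c / 2 * (n : ℝ)) - 1 ≤ m * q ^ n := by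
    have h3 : (1 - ε) * (n : ℝ) ^ d n - 1 ≤ m := by
      have := Nat.lt_floor_add_one ((1 - ε) * (n : ℝ) ^ d n)
      rw [← hm] at this
      linarith
    have h4 : (1 - ε) * Real.exp (c * n) * q ^ n - q ^ n ≤ m * q ^ n := by
      have h5 : (1 - ε) * Real.exp (c * n) - 1 ≤ m := by
        have : (1 - ε) * Real.exp (c * n) ≤ (1 - ε) * (n : ℝ) ^ d n :=
          mul_le_mul_of_nonneg_left hpow (by linarith)
        linarith
      have h6 := mul_le_mul_of_nonneg_right h5 (pow_nonneg h0.le n)
      linarith [h6]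
    have h7 : (1 - ε) * Real.exp (c * n) * q ^ n = (1 - ε) * Real.exp (c / 2 * n) := by
      rw [hqn, mul_assoc, ← Real.exp_add]
      congr 2
      ring
    rw [h7] at h4
    linarith
  calc (1 - q ^ n) ^ m ≤ (Real.exp (-(q ^ n))) ^ m := by
        apply pow_le_pow_left₀ (by linarith)
        have := Real.add_one_le_exp (-(q ^ n))
        linarith
    _ = Real.exp (-(m * q ^ n)) := by
        rw [← Real.exp_nat_mul]
        congr 1
        ring
    _ ≤ Real.exp (-((1 - ε) * Real.exp (c / 2 * (n : ℝ)) - 1)) := by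
        apply Real.exp_le_exp.mpr
        linarith

end Pool.Agent.Results.MP_2a72d7_pr.ZeroColumn
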